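import Pool.Agent.Helper453.SR.Final

/-!
# Normal series of soluble simply reducible groups with prescribed kinds of factors
-/

set_option autoImplicit false
open CategoryTheory MonoidalCategory

namespace Pool.Agent.H452.SRT

open Pool.Agent.Helper453.SR Pool.Agent.Helper453.SR.NA5 Pool.Agent.Helper453.SR.NI5
  Pool.Agent.Helper453.SR.NG6 Pool.Agent.Helper453.SR.NH1 Pool.Agent.Helper453.SR.NH2
  Pool.Agent.Helper453.SR.NH3 Pool.Agent.Helper453.SR.NH5 Pool.Agent.Helper453.SR.NI2
  Pool.Agent.Helper453.SR.NI3 Pool.Agent.Helper453.SR.NI4 Pool.Agent.Helper453.SR.NF1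

/-- the two kinds of factors -/
inductive Kind
  | two
  | oddNil

/-- the groups of a kind -/
def IsKind : Kind → (G : Type) → [Group G] → Prop
  | .two, G, _ => IsPGroup 2 G
  | .oddNil, G, _ => Group.IsNilpotent G ∧ Odd (Nat.card G)

lemma IsKind.of_surjective {k : Kind} {G H : Type} [Group G] [Group H] (f : G →* H)
    (hf : Function.Surjective f) (h : IsKind k G) : IsKind k H := by
  cases k with
  | two => exact IsPGroup.of_surjective h f hf
  | oddNil =>
    obtain ⟨h1, h2⟩ := h
    exact ⟨Group.nilpotent_of_surjective f hf, h2.of_dvd_nat (Subgroup.card_dvd_of_surjective f hf)⟩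

lemma IsKind.of_injective {k : Kind} {G H : Type} [Group G] [Group H] (f : H →* G)
    (hf : Function.Injective f) (h : IsKind k G) : IsKind k H := by
  cases k with
  | two => exact IsPGroup.of_injective h f hf
  | oddNil =>
    obtain ⟨h1, h2⟩ := h
    have hr : Group.IsNilpotent f.range := inferInstance
    exact ⟨(Group.isNilpotent_congr (MonoidHom.ofInjective hf)).2 hr,
      h2.of_dvd_nat (Subgroup.card_dvd_of_injective f hf)⟩

lemma IsKind.prod {k : Kind} {G H : Type} [Group G] [Group H] (hG : IsKind k G)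
    (hH : IsKind k H) : IsKind k (G × H) := by
  cases k with
  | two =>
    rintro ⟨a, b⟩
    obtain ⟨i, hi⟩ := hG a
    obtain ⟨j, hj⟩ := hH b
    refine ⟨i + j, ?_⟩
    ext
    · show a ^ 2 ^ (i + j) = 1
      rw [pow_add, pow_mul, hi, one_pow]
    · show b ^ 2 ^ (i + j) = 1
      rw [pow_add, mul_comm, pow_mul, hj, one_pow]
  | oddNil =>
    obtain ⟨h1, h2⟩ := hG
    obtain ⟨h3, h4⟩ := hH
    refine ⟨inferInstance, ?_⟩
    rw [Nat.card_prod]
    exact h2.mul h4

lemma IsKind.of_subsingleton (k : Kind) (G : Type) [Group G] [Subsingleton G] : IsKind k G := by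
  cases k with
  | two => exact fun g => ⟨0, Subsingleton.elim _ _⟩
  | oddNil =>
    refine ⟨Group.isNilpotent_of_subsingleton, ?_⟩
    rw [Nat.card_unique]
    exact odd_one

/-- `G` has a normal series with factors of the given kinds -/
def NL : List Kind → (G : Type) → [Group G] → Prop
  | [], G, _ => Subsingleton G
  | k :: l, G, _ => ∃ (N : Subgroup G) (_ : N.Normal), IsKind k N ∧ NL l (G ⧸ N)

theorem NL.surj (l : List Kind) {G H : Type} [Group G] [Group H] (f : G →* H)
    (hf : Function.Surjective f) (h : NL l G) : NL l H := by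
  induction l generalizing G H with
  | nil =>
    have h' : Subsingleton G := h
    exact hf.subsingleton
  | cons k l ih =>
    obtain ⟨N, hN, hnil, hq⟩ := h
    haveI := hN
    haveI hN' : (N.map f).Normal := hN.map f hf
    refine ⟨N.map f, hN', hnil.of_surjective (f.subgroupMap N) (f.subgroupMap_surjective N), ?_⟩
    refine ih (QuotientGroup.map N (N.map f) f (Subgroup.le_comap_map f N)) ?_ hq
    intro y
    obtain ⟨y, rfl⟩ := QuotientGroup.mk_surjective y
    obtain ⟨x, rfl⟩ := hf y
    exact ⟨QuotientGroup.mk x, rfl⟩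

theorem NL.inj (l : List Kind) {G H : Type} [Group G] [Group H] (f : H →* G)
    (hf : Function.Injective f) (h : NL l G) : NL l H := by
  induction l generalizing G H with
  | nil =>
    have : Subsingleton G := h
    exact hf.subsingleton
  | cons k l ih =>
    obtain ⟨N, hN, hnil, hq⟩ := h
    refine ⟨N.comap f, hN.comap f, ?_, ?_⟩
    · refine hnil.of_injective (f.subgroupComap N) ?_
      intro a b hab
      apply Subtype.ext
      apply hf
      exact congrArg Subtype.val hab
    · refine ih (QuotientGroup.map (N.comap f) N f le_rfl) ?_ hq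
      intro a b hab
      induction a using QuotientGroup.induction_on with
      | H a =>
      induction b using QuotientGroup.induction_on with
      | H b =>
      rw [QuotientGroup.map_mk, QuotientGroup.map_mk, QuotientGroup.eq] at hab
      rw [QuotientGroup.eq, Subgroup.mem_comap, map_mul, map_inv]
      exact hab

theorem NL.prod (l : List Kind) {G H : Type} [Group G] [Group H] (hG : NL l G) (hH : NL l H) :
    NL l (G × H) := by
  induction l generalizing G H with
  | nil =>
    have h1 : Subsingleton G := hG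
    have h2 : Subsingleton H := hH
    show Subsingleton (G × H)
    infer_instance
  | cons k l ih =>
    obtain ⟨N, hN, hNn, hNl⟩ := hG
    obtain ⟨M, hM, hMn, hMl⟩ := hH
    have hq : NL l ((G ⧸ N) × (H ⧸ M)) := ih hNl hMl
    let φ : G × H →* (G ⧸ N) × (H ⧸ M) := (QuotientGroup.mk' N).prodMap (QuotientGroup.mk' M)
    have hk : φ.ker = N.prod M := by
      ext ⟨a, b⟩
      simp [φ, MonoidHom.mem_ker, Subgroup.mem_prod, Prod.ext_iff]
    refine ⟨φ.ker, inferInstance, ?_, ?_⟩
    · rw [hk]
      exact (hNn.prod hMn).of_injective (Subgroup.prodEquiv N M).toMonoidHom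
        (Subgroup.prodEquiv N M).injective
    · exact NL.inj l (QuotientGroup.kerLift φ) (QuotientGroup.kerLift_injective φ) hq

theorem NL.of_subsingleton (l : List Kind) {G : Type} [Group G] (h : Subsingleton G) :
    NL l G := by
  induction l generalizing G with
  | nil => exact h
  | cons k l ih =>
    refine ⟨⊤, inferInstance, ?_, ih ?_⟩
    · have : Subsingleton (⊤ : Subgroup G) := inferInstance
      exact IsKind.of_subsingleton k _
    · exact QuotientGroup.subsingleton_quotient_top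

theorem NL_inf (l : List Kind) {G : Type} [Group G] (C D : Subgroup G)
    (hC : ∃ _ : C.Normal, NL l (G ⧸ C)) (hD : ∃ _ : D.Normal, NL l (G ⧸ D)) :
    ∃ _ : (C ⊓ D).Normal, NL l (G ⧸ (C ⊓ D)) := by
  obtain ⟨hCn, hC⟩ := hC
  obtain ⟨hDn, hD⟩ := hD
  refine ⟨inferInstance, ?_⟩
  have hk : ∀ x ∈ C ⊓ D, ((QuotientGroup.mk' C).prod (QuotientGroup.mk' D)) x = 1 := by
    intro x hx
    rw [Subgroup.mem_inf] at hx
    ext
    · exact (QuotientGroup.eq_one_iff x).2 hx.1
    · exact (QuotientGroup.eq_one_iff x).2 hx.2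
  refine NL.inj l (QuotientGroup.lift (C ⊓ D) ((QuotientGroup.mk' C).prod (QuotientGroup.mk' D)) hk)
    ?_ (NL.prod l hC hD)
  rw [injective_iff_map_eq_one]
  intro a ha
  induction a using QuotientGroup.induction_on with
  | H x =>
    have ha' : (((QuotientGroup.mk' C).prod (QuotientGroup.mk' D)) x) = 1 := ha
    have h1 : (QuotientGroup.mk x : G ⧸ C) = 1 := congrArg Prod.fst ha'
    have h2 : (QuotientGroup.mk x : G ⧸ D) = 1 := congrArg Prod.snd ha'
    rw [QuotientGroup.eq_one_iff] at h1 h2 ⊢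
    exact ⟨h1, h2⟩

theorem NL_sInf (l : List Kind) {G : Type} [Group G] [Finite G] (S : Set (Subgroup G))
    (h : ∀ C ∈ S, ∃ _ : C.Normal, NL l (G ⧸ C)) :
    ∃ _ : (sInf S).Normal, NL l (G ⧸ sInf S) := by
  have hfin : S.Finite := Set.toFinite S
  revert h
  induction S, hfin using Set.Finite.induction_on with
  | empty =>
    intro _
    rw [sInf_empty]
    refine ⟨inferInstance, NL.of_subsingleton l ?_⟩
    exact QuotientGroup.subsingleton_quotient_top
  | @insert C S hC hS ih =>
    intro h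
    rw [sInf_insert]
    exact NL_inf l C (sInf S) (h C (Set.mem_insert _ _))
      (ih fun D hD => h D (Set.mem_insert_of_mem _ hD))

theorem H4' (l : List Kind) {K : Type} [Group K] [Finite K] [Group.IsSolvable K]
    (h2 : ∀ W : Subgroup K, W.Normal → IsPGroup 2 W → W = ⊥)
    (h : ∀ (C : Subgroup K) [C.Normal] (s : ℕ), s.Prime → s ≠ 2 → PrimData s (K ⧸ C) →
      NL (.oddNil :: l) (K ⧸ C)) :
    NL (.oddNil :: l) K := by
  classical
  set S : Set (Subgroup K) :=
    {C : Subgroup K | ∃ M : Subgroup K, IsCoatom M ∧ Odd M.index ∧ C = M.normalCore} with hS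
  have h3 : sInf S ≤ frattini K := H3 h2
  obtain ⟨hn, h5⟩ := NL_sInf (.oddNil :: l) S (by
    rintro C ⟨M, hM, hodd, rfl⟩
    obtain ⟨s, k, hs, hk, hidx, hP⟩ := H1 M hM
    refine ⟨inferInstance, h M.normalCore s hs ?_ hP⟩
    rintro rfl
    rw [hidx] at hodd
    exact (Nat.not_odd_iff_even.2 (Nat.even_pow.2 ⟨even_two, by omega⟩)) hodd)
  have h6 : NL (.oddNil :: l) (K ⧸ frattini K) := by
    refine NL.surj _ (QuotientGroup.map (sInf S) (frattini K) (MonoidHom.id K) h3) ?_ h5
    intro y
    obtain ⟨k, rfl⟩ := QuotientGroup.mk_surjective y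
    exact ⟨(k : K ⧸ sInf S), rfl⟩
  obtain ⟨N, hN, hnil, hlen⟩ := h6
  have hFn : (N.comap (QuotientGroup.mk' (frattini K))).Normal := hN.comap _
  have hF : frattini K ≤ N.comap (QuotientGroup.mk' (frattini K)) := by
    intro x hx
    rw [Subgroup.mem_comap]
    have : QuotientGroup.mk' (frattini K) x = 1 := (QuotientGroup.eq_one_iff x).2 hx
    rw [this]
    exact N.one_mem
  have hnil2 : Group.IsNilpotent ↥(N.comap (QuotientGroup.mk' (frattini K))) := by
    refine H2 _ hFn hF ?_
    rw [Subgroup.map_comap_eq_self_of_surjective (QuotientGroup.mk'_surjective _)]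
    exact hnil.1
  refine ⟨N.comap (QuotientGroup.mk' (frattini K)), hFn, ⟨hnil2, H3_odd h2 _ hFn hnil2⟩, ?_⟩
  let g : K ⧸ frattini K →* K ⧸ (N.comap (QuotientGroup.mk' (frattini K))) :=
    QuotientGroup.map (frattini K) _ (MonoidHom.id K) hF
  have hker : ∀ x ∈ N, g x = 1 := by
    intro x hx
    obtain ⟨k, rfl⟩ := QuotientGroup.mk_surjective x
    show ((k : K) : K ⧸ (N.comap (QuotientGroup.mk' (frattini K)))) = 1
    rw [QuotientGroup.eq_one_iff]
    exact hx
  refine NL.surj l (QuotientGroup.lift N g hker) ?_ hlen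
  intro y
  obtain ⟨k, rfl⟩ := QuotientGroup.mk_surjective y
  exact ⟨((k : K ⧸ frattini K) : (K ⧸ frattini K) ⧸ N), rfl⟩

/-- a finite `s`-group, `s` odd, is of kind `oddNil` -/
lemma kind_of_pGroup {s : ℕ} (hs : s.Prime) (hs2 : s ≠ 2) {V : Type} [Group V] [Finite V]
    (hV : IsPGroup s V) : IsKind .oddNil V := by
  haveI : Fact s.Prime := ⟨hs⟩
  refine ⟨hV.isNilpotent, ?_⟩
  obtain ⟨n, hn⟩ := IsPGroup.iff_card.mp hV
  rw [hn]
  exact (hs.odd_of_ne_two hs2).pow

theorem I3' {X : Type} [Group X] [Finite X] [Group.IsSolvable X] (hX : PairInv X) (hC : CEN X)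
    (h2 : ∀ W : Subgroup X, W.Normal → IsPGroup 2 W → W = ⊥) : NL [.oddNil, .two] X := by
  apply H4' _ h2
  intro C _ s hs hs2 hPD
  obtain ⟨V, L, hVn, hcomm, hexp, hc, hself⟩ := hPD
  have hQ : PairInv (X ⧸ C) :=
    j14235_pi (QuotientGroup.mk' C) (QuotientGroup.mk'_surjective C) hX
  have hCQ : CEN (X ⧸ C) := F1 (QuotientGroup.mk' C) (QuotientGroup.mk'_surjective C) hC
  have hI2 := I2 hs hs2 hQ V L hVn hcomm hexp hc hself
  have hVp : IsPGroup s V := by
    intro a
    refine ⟨1, ?_⟩
    apply Subtype.ext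
    rw [pow_one]
    exact hexp a.1 a.2
  have key : ∀ (r : ℕ), r.Prime → r ≠ 2 → ∀ t : X ⧸ C, (∃ n, t ^ (r ^ n) = 1) → t ∈ V := by
    intro r hr hr2 t ht
    by_cases hrs : r = s
    · subst hrs
      exact hI2.1 t ht
    · exact hself t (hCQ s r hs hr hs2 hr2 (fun h => hrs h.symm) V hVp t ht
        (fun a ha => hVn.conj_mem a ha t))
  haveI := hVn
  have h2g : IsPGroup 2 ((X ⧸ C) ⧸ V) := I3_aux V key
  refine ⟨V, hVn, kind_of_pGroup hs hs2 hVp, ⊤, inferInstance, ?_, ?_⟩
  · exact h2g.to_subgroup ⊤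
  · exact QuotientGroup.subsingleton_quotient_top

theorem I4' {P : Type} [Group P] [Finite P] [Group.IsSolvable P] (hP : PairInv P) (s : ℕ)
    (hs : s.Prime) (hs2 : s ≠ 2) (hd : PrimData s P) :
    NL [.oddNil, .two, .oddNil, .two] P := by
  obtain ⟨V, L, hVn, hcomm, hexp, hc, hself⟩ := hd
  obtain ⟨-, -, hC⟩ := I2 hs hs2 hP V L hVn hcomm hexp hc hself
  have hY : PairInv (P ⧸ V) := j14235_pi (QuotientGroup.mk' V) (QuotientGroup.mk'_surjective V) hP
  obtain ⟨N, hN, hN2, hW⟩ := H5 (P ⧸ V)
  have hX : PairInv ((P ⧸ V) ⧸ N) :=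
    j14235_pi (QuotientGroup.mk' N) (QuotientGroup.mk'_surjective N) hY
  have hCX : CEN ((P ⧸ V) ⧸ N) :=
    F1 (QuotientGroup.mk' N) (QuotientGroup.mk'_surjective N) hC
  have h2 : NL [.oddNil, .two] ((P ⧸ V) ⧸ N) := I3' hX hCX hW
  have h3 : NL [.two, .oddNil, .two] (P ⧸ V) := ⟨N, hN, hN2, h2⟩
  have hVp : IsPGroup s V := by
    intro a
    refine ⟨1, ?_⟩
    apply Subtype.ext
    rw [pow_one]
    exact hexp a.1 a.2
  exact ⟨V, hVn, kind_of_pGroup hs hs2 hVp, h3⟩

theorem I5' {G : Type} [Group G] [Finite G] [Group.IsSolvable G] (hG : PairInv G) :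
    NL [.two, .oddNil, .two, .oddNil, .two] G := by
  obtain ⟨N, hN, h2, hW⟩ := H5 G
  refine ⟨N, hN, h2, ?_⟩
  exact H4' _ (K := G ⧸ N) hW fun C hC s hs hs2 hd =>
    I4' (I5_quot (I5_quot hG N) C) s hs hs2 hd

/-- transfer of a factor -/
theorem factor_comap {k : Kind} {G H : Type} [Group G] [Group H] (π : G →* H) (A B : Subgroup H)
    (hA : A.Normal) (hA' : (A.comap π).Normal)
    (h : IsKind k (↥B ⧸ A.subgroupOf B)) :
    IsKind k (↥(B.comap π) ⧸ (A.comap π).subgroupOf (B.comap π)) := by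
  have hle : (A.comap π).subgroupOf (B.comap π) ≤ (A.subgroupOf B).comap (π.subgroupComap B) := by
    intro x hx
    exact hx
  refine h.of_injective
    (QuotientGroup.map ((A.comap π).subgroupOf (B.comap π)) (A.subgroupOf B)
      (π.subgroupComap B) hle) ?_
  rw [injective_iff_map_eq_one]
  intro a ha
  obtain ⟨x, rfl⟩ := QuotientGroup.mk_surjective a
  rw [QuotientGroup.map_mk, QuotientGroup.eq_one_iff] at ha
  rw [QuotientGroup.eq_one_iff]
  exact ha

theorem chain (l : List Kind) {G : Type} [Group G] (h : NL l G) :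
    ∃ (N : ℕ → Subgroup G) (_ : ∀ i, (N i).Normal), N 0 = ⊥ ∧ N l.length = ⊤ ∧
      ∀ i (hi : i < l.length), N i ≤ N (i + 1) ∧
        IsKind l[i] (↥(N (i + 1)) ⧸ (N i).subgroupOf (N (i + 1))) := by
  induction l generalizing G with
  | nil =>
    have hs : Subsingleton G := h
    exact ⟨fun _ => ⊤, fun _ => inferInstance, Subsingleton.elim _ _, rfl,
      fun i hi => absurd hi (Nat.not_lt_zero _)⟩
  | cons k l ih =>
    obtain ⟨N₁, hN₁, hnil, hl⟩ := h
    obtain ⟨Q, hQ, hQ0, hQn, hQs⟩ := ih hl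
    have hnor : ∀ i, (G6_chain N₁ Q i).Normal := by
      intro i
      cases i with
      | zero => exact (inferInstance : (⊥ : Subgroup G).Normal)
      | succ i =>
        have := hQ i
        exact (inferInstance : ((Q i).comap (QuotientGroup.mk' N₁)).Normal)
    refine ⟨G6_chain N₁ Q, hnor, rfl, ?_, ?_⟩
    · show (Q l.length).comap (QuotientGroup.mk' N₁) = ⊤
      rw [hQn, Subgroup.comap_top]
    · intro i hi
      cases i with
      | zero =>
        refine ⟨bot_le, ?_⟩
        have h1 : G6_chain N₁ Q (0 + 1) = N₁ := by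
          show (Q 0).comap (QuotientGroup.mk' N₁) = N₁
          rw [hQ0, MonoidHom.comap_bot, QuotientGroup.ker_mk']
        have h2 : IsKind k ↥(G6_chain N₁ Q (0 + 1)) := by
          rw [h1]; exact hnil
        have h3 := hnor 0
        exact h2.of_surjective (QuotientGroup.mk' _) (QuotientGroup.mk'_surjective _)
      | succ i =>
        have hi' : i < l.length := Nat.lt_of_succ_lt_succ hi
        refine ⟨Subgroup.comap_mono (hQs i hi').1, ?_⟩
        exact factor_comap (QuotientGroup.mk' N₁) (Q i) (Q (i + 1)) (hQ i) (hnor (i + 1))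
          (hQs i hi').2

end Pool.Agent.H452.SRT
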